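import Pool.Agent.H83.O1.K7
import Pool.Agent.H68.O1.Heta

/-!
K7 in full: in a finite simple nonassociative automorphic loop with an inversion without fixed points
`th(a, b)` fixes `b` for all `a`, `b`.
-/

set_option autoImplicit false

namespace ALoop

open Equiv

variable {Q : Type*} {G : Subgroup (Perm Q)} {L : Q → Perm Q} {J : Perm Q} {e : Q}

theorem AL.K7 [Finite Q] (h : AL G L J e) (hna : ¬ Assoc L) (hfix : ∀ x, J x = x → x = e)
    (a b : Q) : Th L J a b b = b :=
  h.K7_of hna hfix (fun a b q => h.al0.heta a b q rfl) a b

end ALoop
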