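import Pool.Agent.H17.O1.K7
import Pool.Agent.H57.OC.End

/-!
A finite simple automorphic loop whose inversion has no fixed point other than the unit is associative.
-/

set_option autoImplicit false

namespace ALoop

open Equiv

variable {Q : Type*} {G : Subgroup (Perm Q)} {L : Q → Perm Q} {J : Perm Q} {e : Q}

theorem AL.assoc_of_hfix [Finite Q] (h : AL G L J e) (hfix : ∀ x, J x = x → x = e) : Assoc L := by
  by_contra hna
  exact hna (h.assoc_of_K7 (h.K7 hna hfix))

end ALoop
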